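import Mathlib

/-!
# Determinant versus diagonal product for diagonally balanced positive matrices

Let `M = D^{-1/2} J D^{-1/2}` with `D` the diagonal part of `J`. Then `M` is positive semidefinite,
has trace `n`, determinant `det J / ∏ J i i`, and `2` is an eigenvalue of `M` (with eigenvector
`D^{1/2} 1`, because the row sums of `J` are `2 J i i`). The other `n - 1` eigenvalues are
nonnegative with sum `n - 2`, and the arithmetic-geometric mean inequality bounds their product.
-/

set_option autoImplicit false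

open Matrix Finset

namespace Pool.Agent.Results.MP_fab4c6_an.BalancedDet

/-- The quadratic form of a diagonally balanced symmetric nonnegative matrix. -/
lemma quad_nonneg {n : ℕ} (J : Matrix (Fin n) (Fin n) ℝ) (hs : J.IsSymm)
    (hpos : ∀ i j, 0 < J i j) (hb : ∀ i, J i i = ∑ j ∈ univ.erase i, J i j) (y : Fin n → ℝ) :
    0 ≤ y ⬝ᵥ (J *ᵥ y) := by
  classical
  set K : Fin n → Fin n → ℝ := fun i j => if i = j then 0 else J i j with hK
  have hKs : ∀ i j, K i j = K j i := by
    intro i j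
    by_cases h : i = j
    · subst h; rfl
    · have h' : ¬ j = i := fun e => h e.symm
      simp only [hK, if_neg h, if_neg h']
      exact (hs.apply i j).symm
  have hK0 : ∀ i j, 0 ≤ K i j := by
    intro i j
    simp only [hK]
    split_ifs
    · exact le_rfl
    · exact (hpos i j).le
  have hd : ∀ i, J i i = ∑ j, K i j := by
    intro i
    rw [hb i, ← Finset.add_sum_erase univ (fun j => K i j) (Finset.mem_univ i)]
    simp only [hK, if_true, zero_add]
    refine Finset.sum_congr rfl fun j hj => ?_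
    rw [if_neg (Finset.ne_of_mem_erase hj).symm]
  have h1 : y ⬝ᵥ (J *ᵥ y) = ∑ i, ∑ j, K i j * (y i ^ 2 + y i * y j) := by
    simp only [dotProduct, mulVec]
    refine Finset.sum_congr rfl fun i _ => ?_
    rw [← Finset.add_sum_erase univ (fun j => J i j * y j) (Finset.mem_univ i)]
    have e1 : ∑ j ∈ univ.erase i, J i j * y j = ∑ j, K i j * y j := by
      rw [← Finset.add_sum_erase univ (fun j => K i j * y j) (Finset.mem_univ i)]
      simp only [hK, if_true, zero_mul, zero_add]
      refine Finset.sum_congr rfl fun j hj => ?_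
      rw [if_neg (Finset.ne_of_mem_erase hj).symm]
    rw [e1, hd i, mul_add, Finset.sum_mul, Finset.mul_sum, Finset.mul_sum, ← Finset.sum_add_distrib]
    refine Finset.sum_congr rfl fun j _ => ?_
    ring
  have h2 : 2 * (y ⬝ᵥ (J *ᵥ y)) = ∑ i, ∑ j, K i j * (y i + y j) ^ 2 := by
    have h3 : ∑ i, ∑ j, K i j * (y i ^ 2 + y i * y j) =
        ∑ i, ∑ j, K i j * (y j ^ 2 + y i * y j) := by
      rw [Finset.sum_comm]
      refine Finset.sum_congr rfl fun i _ => Finset.sum_congr rfl fun j _ => ?_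
      rw [hKs j i]; ring
    rw [two_mul]
    nth_rewrite 2 [h1]
    rw [h3, h1, ← Finset.sum_add_distrib]
    refine Finset.sum_congr rfl fun i _ => ?_
    rw [← Finset.sum_add_distrib]
    refine Finset.sum_congr rfl fun j _ => ?_
    ring
  have h4 : 0 ≤ ∑ i, ∑ j, K i j * (y i + y j) ^ 2 :=
    Finset.sum_nonneg fun i _ => Finset.sum_nonneg fun j _ => mul_nonneg (hK0 i j) (sq_nonneg _)
  linarith

/-- AM-GM for a finite family, in the form used below. -/
lemma prod_le_pow {ι : Type*} (s : Finset ι) (z : ι → ℝ) (m : ℕ) (hm : 0 < m) (hs : s.card = m)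
    (hz : ∀ i ∈ s, 0 ≤ z i) : ∏ i ∈ s, z i ≤ ((∑ i ∈ s, z i) / m) ^ m := by
  have hm' : (0 : ℝ) < m := by exact_mod_cast hm
  have h := Real.geom_mean_le_arith_mean_weighted s (fun _ => (1 / m : ℝ)) z
    (fun _ _ => by positivity) (by rw [Finset.sum_const, hs, nsmul_eq_mul]; field_simp) hz
  have h2 : (∏ i ∈ s, z i ^ (1 / m : ℝ)) ^ m = ∏ i ∈ s, z i := by
    rw [← Finset.prod_pow]
    refine Finset.prod_congr rfl fun i hi => ?_
    rw [← Real.rpow_natCast, ← Real.rpow_mul (hz i hi), one_div, inv_mul_cancel₀ hm'.ne',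
      Real.rpow_one]
  have h3 : 0 ≤ ∏ i ∈ s, z i ^ (1 / m : ℝ) :=
    Finset.prod_nonneg fun i hi => Real.rpow_nonneg (hz i hi) _
  calc ∏ i ∈ s, z i = (∏ i ∈ s, z i ^ (1 / m : ℝ)) ^ m := h2.symm
    _ ≤ (∑ i ∈ s, (1 / m : ℝ) * z i) ^ m := pow_le_pow_left₀ h3 h m
    _ = ((∑ i ∈ s, z i) / m) ^ m := by rw [← Finset.mul_sum]; ring

/-- The determinant of `S = (n - 2) I + 1 1ᵀ`. -/
lemma det_S (n : ℕ) (hn : 3 ≤ n) :
    (((n : ℝ) - 2) • (1 : Matrix (Fin n) (Fin n) ℝ) + Matrix.of fun _ _ => (1 : ℝ)).det =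
      2 * ((n : ℝ) - 1) * ((n : ℝ) - 2) ^ (n - 1) := by
  have hn' : (3 : ℝ) ≤ n := by exact_mod_cast hn
  have h0 : (n : ℝ) - 2 ≠ 0 := by linarith
  have h1 : (((n : ℝ) - 2) • (1 : Matrix (Fin n) (Fin n) ℝ) + Matrix.of fun _ _ => (1 : ℝ)) =
      ((n : ℝ) - 2) • (1 + Matrix.replicateCol Unit (fun _ : Fin n => ((n : ℝ) - 2)⁻¹) *
        Matrix.replicateRow Unit (fun _ : Fin n => (1 : ℝ))) := by
    ext i j
    simp [Matrix.mul_apply, Matrix.add_apply, Matrix.smul_apply, mul_add, h0]
  rw [h1, Matrix.det_smul, Matrix.det_one_add_replicateCol_mul_replicateRow, Fintype.card_fin]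
  have h2 : (fun _ : Fin n => (1 : ℝ)) ⬝ᵥ (fun _ : Fin n => ((n : ℝ) - 2)⁻¹) =
      n * ((n : ℝ) - 2)⁻¹ := by
    simp [dotProduct]
  rw [h2]
  obtain ⟨m, rfl⟩ : ∃ m, n = m + 1 := ⟨n - 1, by omega⟩
  rw [Nat.add_sub_cancel, pow_succ]
  field_simp
  ring

/-- For every `n ≥ 3` and every symmetric real `n × n` matrix `J` with positive entries and
`J i i = ∑_{j ≠ i} J i j` for all `i`, one has
`det J / ∏ J i i ≤ det S / (n-1)^n = 2 (1 - 1/(n-1))^(n-1)`, where `S = (n-2) I + 1 1ᵀ`. -/
theorem result (n : ℕ) (hn : 3 ≤ n) (J : Matrix (Fin n) (Fin n) ℝ) (hs : J.IsSymm)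
    (hpos : ∀ i j, 0 < J i j) (hb : ∀ i, J i i = ∑ j ∈ univ.erase i, J i j) :
    J.det / ∏ i, J i i ≤
      (((n : ℝ) - 2) • (1 : Matrix (Fin n) (Fin n) ℝ) + Matrix.of fun _ _ => (1 : ℝ)).det /
        ((n : ℝ) - 1) ^ n ∧
    (((n : ℝ) - 2) • (1 : Matrix (Fin n) (Fin n) ℝ) + Matrix.of fun _ _ => (1 : ℝ)).det /
        ((n : ℝ) - 1) ^ n = 2 * (1 - 1 / ((n : ℝ) - 1)) ^ (n - 1) := by
  classical
  have hn' : (3 : ℝ) ≤ n := by exact_mod_cast hn
  have hn1 : (0 : ℝ) < (n : ℝ) - 1 := by linarith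
  have hS : (((n : ℝ) - 2) • (1 : Matrix (Fin n) (Fin n) ℝ) + Matrix.of fun _ _ => (1 : ℝ)).det /
        ((n : ℝ) - 1) ^ n = 2 * (1 - 1 / ((n : ℝ) - 1)) ^ (n - 1) := by
    rw [det_S n hn]
    have e1 : (1 - 1 / ((n : ℝ) - 1)) = ((n : ℝ) - 2) / ((n : ℝ) - 1) := by
      field_simp; ring
    rw [e1, div_pow]
    have e2 : ((n : ℝ) - 1) ^ n = ((n : ℝ) - 1) ^ (n - 1) * ((n : ℝ) - 1) := by
      rw [← pow_succ]; congr 1; omega
    rw [e2]
    field_simp
  refine ⟨?_, hS⟩
  rw [hS]
  -- the normalised matrix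
  set r : Fin n → ℝ := fun i => (Real.sqrt (J i i))⁻¹ with hr
  have hsq : ∀ i, 0 < Real.sqrt (J i i) := fun i => Real.sqrt_pos.2 (hpos i i)
  have hrr : ∀ i, r i * r i * J i i = 1 := by
    intro i
    have : Real.sqrt (J i i) * Real.sqrt (J i i) = J i i := Real.mul_self_sqrt (hpos i i).le
    simp only [hr]
    field_simp [(hsq i).ne']
    nlinarith [this]
  set M : Matrix (Fin n) (Fin n) ℝ := Matrix.diagonal r * J * Matrix.diagonal r with hM
  have hMij : ∀ i j, M i j = r i * J i j * r j := by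
    intro i j
    rw [hM, Matrix.mul_diagonal, Matrix.diagonal_mul]
  have hMps : M.PosSemidef := by
    have hJ : J.PosSemidef := by
      refine PosSemidef.of_dotProduct_mulVec_nonneg ?_ ?_
      · rw [Matrix.IsHermitian, Matrix.conjTranspose_eq_transpose_of_trivial]; exact hs
      · intro x
        simpa using quad_nonneg J hs hpos hb x
    have := hJ.conjTranspose_mul_mul_same (Matrix.diagonal r)
    rwa [Matrix.diagonal_conjTranspose, star_trivial] at this
  have hdet : M.det = J.det / ∏ i, J i i := by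
    rw [hM, Matrix.det_mul, Matrix.det_mul, Matrix.det_diagonal]
    have h1 : (∏ i, r i) * (∏ i, r i) * ∏ i, J i i = 1 := by
      rw [← Finset.prod_mul_distrib, ← Finset.prod_mul_distrib]
      exact Finset.prod_eq_one fun i _ => hrr i
    have h2 : (∏ i, J i i) ≠ 0 := Finset.prod_ne_zero_iff.2 fun i _ => (hpos i i).ne'
    rw [eq_div_iff h2]
    linear_combination J.det * h1
  have htr : M.trace = n := by
    simp only [Matrix.trace, Matrix.diag_apply, hMij]
    rw [Finset.sum_congr rfl (fun i _ => show r i * J i i * r i = 1 by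
      have := hrr i; linarith [this, mul_comm (r i * J i i) (r i), mul_assoc (r i) (r i) (J i i)])]
    simp
  have hH := hMps.isHermitian
  -- the eigenvalue 2
  obtain ⟨i₀, hi₀⟩ : ∃ i, hH.eigenvalues i = 2 := by
    have hmem : (2 : ℝ) ∈ spectrum ℝ M := by
      rw [spectrum.mem_iff, Matrix.isUnit_iff_isUnit_det, isUnit_iff_ne_zero, not_not,
        ← Matrix.exists_mulVec_eq_zero_iff]
      refine ⟨fun i => Real.sqrt (J i i), ?_, ?_⟩
      · intro h
        have := congrFun h ⟨0, by omega⟩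
        exact (hsq _).ne' this
      · funext i
        have hrow : ∑ j, J i j = 2 * J i i := by
          rw [← Finset.add_sum_erase univ (fun j => J i j) (Finset.mem_univ i), ← hb i]; ring
        have h1 : (M *ᵥ fun i => Real.sqrt (J i i)) i = 2 * Real.sqrt (J i i) := by
          simp only [mulVec, dotProduct, hMij]
          have h2 : ∀ j, r i * J i j * r j * Real.sqrt (J j j) = r i * J i j := by
            intro j
            simp only [hr]
            rw [mul_assoc, inv_mul_cancel₀ (hsq j).ne', mul_one]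
          rw [Finset.sum_congr rfl fun j _ => h2 j, ← Finset.mul_sum, hrow]
          simp only [hr]
          have : Real.sqrt (J i i) * Real.sqrt (J i i) = J i i := Real.mul_self_sqrt (hpos i i).le
          field_simp [(hsq i).ne']
          nlinarith [this]
        rw [Matrix.sub_mulVec, Pi.sub_apply, h1]
        simp [Matrix.algebraMap_eq_diagonal, Matrix.mulVec_diagonal]
    rw [hH.spectrum_real_eq_range_eigenvalues] at hmem
    exact hmem
  have hnn : ∀ i, 0 ≤ hH.eigenvalues i := fun i => hMps.eigenvalues_nonneg i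
  have hsum : ∑ i ∈ univ.erase i₀, hH.eigenvalues i = n - 2 := by
    have h1 := hH.trace_eq_sum_eigenvalues
    rw [htr] at h1
    have h2 := Finset.add_sum_erase univ (fun i => hH.eigenvalues i) (Finset.mem_univ i₀)
    simp only [hi₀] at h2
    simp only [RCLike.ofReal_real_eq_id, id_eq] at h1
    linarith
  have hcard : (univ.erase i₀ : Finset (Fin n)).card = n - 1 := by
    rw [Finset.card_erase_of_mem (Finset.mem_univ _), Finset.card_univ, Fintype.card_fin]
  have hprod := prod_le_pow (univ.erase i₀) (fun i => hH.eigenvalues i) (n - 1) (by omega) hcard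
    (fun i _ => hnn i)
  rw [hsum] at hprod
  have hfin : M.det = 2 * ∏ i ∈ univ.erase i₀, hH.eigenvalues i := by
    rw [hH.det_eq_prod_eigenvalues]
    simp only [RCLike.ofReal_real_eq_id, id_eq]
    rw [← Finset.mul_prod_erase univ (fun i => hH.eigenvalues i) (Finset.mem_univ i₀), hi₀]
  rw [← hdet, hfin]
  have e1 : ((n - 1 : ℕ) : ℝ) = (n : ℝ) - 1 := by
    rw [Nat.cast_sub (by omega)]; simp
  rw [e1] at hprod
  have e2 : (1 - 1 / ((n : ℝ) - 1)) = ((n : ℝ) - 2) / ((n : ℝ) - 1) := by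
    field_simp; ring
  rw [e2]
  linarith

end Pool.Agent.Results.MP_fab4c6_an.BalancedDet
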